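import Pool.Agent.H.MP_1a7c10_an.G
set_option autoImplicit false

namespace Pool.Agent.Results.MP_1a7c10_an.Yes
open Pool.Agent.H.MP_1a7c10_an

universe u

/-- Kalton's property of a set `W`. -/
def Kalton (𝕜 : Type) [RCLike 𝕜] {M X : Type u} [MetricSpace M] [AddCommGroup X] [Module 𝕜 X]
    (N : X → ℝ) (δ : M → X) (W : Set X) : Prop :=
  ∀ ε > 0, ∀ r > 0, ∃ E : Finset M, ∀ w ∈ W,
    ∃ y ∈ cspan 𝕜 N δ {x | ∃ e ∈ E, dist x e ≤ r}, N (w - y) ≤ ε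

theorem result (𝕜 : Type) [RCLike 𝕜] (p : ℝ) (hp0 : 0 < p) (hp1 : p < 1) (M : Type u)
    [MetricSpace M] (hM : Bornology.IsBounded (Set.univ : Set M)) (o : M) (X : Type u)
    [AddCommGroup X] [Module 𝕜 X] (N : X → ℝ) (δ : M → X) (hF : IsFree 𝕜 p o X N δ)
    (W : Set X) (hW : ∃ B : ℝ, ∀ w ∈ W, N w ≤ B) (hK : ¬ Kalton 𝕜 N δ W) :
    ∃ x : ℕ → X, (∀ n, x n ∈ W) ∧ EquivLp 𝕜 p N x := by
  have hB := hF.banach
  letI := hB.ng hp0
  have hn : ∀ x : X, ‖x‖ = N x ^ p := fun _ => rfl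
  obtain ⟨B, hWB⟩ := hW
  obtain ⟨R, hR⟩ := hM.subset_closedBall o
  unfold Kalton at hK
  push Not at hK
  obtain ⟨ε, hε, r, hr, hK⟩ := hK
  obtain ⟨x, hx, κ, hκ, hl⟩ := (hF.ctx hp0).kalton (R := R) (fun x => hR (Set.mem_univ x)) W
    (B := B ^ p) (s := ε ^ p) (r := r)
    (fun w hw => Real.rpow_le_rpow (hB.nonneg _) (hWB w hw) hp0.le) (by positivity) hr
    (fun E => by
      obtain ⟨w, hw, hy⟩ := hK E
      refine ⟨w, hw, fun y hy' => ?_⟩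
      have := hy y (fun η hη => ⟨y, hy', by rw [sub_self, hB.zero]; exact hη⟩)
      exact Real.rpow_le_rpow hε.le this.le hp0.le)
  exact ⟨x, hx, hB.equivLp hp0 x B κ hκ (fun n => hWB _ (hx n)) hl⟩

end Pool.Agent.Results.MP_1a7c10_an.Yes
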